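import Pool.Agent.Y49x.Darc.Zeros

/-!
# The degrees for which the D'Arcais polynomial vanishes at a given point have density zero

For every complex `x` that is not a rational integer, in particular for `x = i t` with `t ≠ 0`
real, the set of the `n` with `P_n (x) = 0` has natural density zero. (For `x = -1` or `x = -3`
its density is one.)

The proof: if `P_n (x) = 0` and the prime `p` divides `n` then the minimal polynomial of `x` divides
`(X ^ p - X) ^ (n / p)` modulo `p`, and an elementary count of the values of a binary form shows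
that the primes modulo which a polynomial without rational roots does not split have a divergent
sum of reciprocals.
-/

set_option autoImplicit false

namespace Pool.Agent.Results.MP_d73f62_nt.DensityZero

open Polynomial Filter Topology

/-- The D'Arcais polynomials: `P 0 = 1` and
`P (n + 1) = x / (n + 1) * ∑_{k = 0}^{n} σ(k + 1) P (n - k)`. -/
noncomputable def P : ℕ → ℚ[X]
  | 0 => 1
  | n + 1 => C (1 / ((n : ℚ) + 1)) * X * ∑ k : Fin (n + 1),
      C (ArithmeticFunction.sigma 1 ((k : ℕ) + 1) : ℚ) * P (n - k)

lemma aeval_P (x : ℂ) (n : ℕ) :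
    (n.factorial : ℂ) * aeval x (P n) = Pool.Agent.R326.av x n := by
  induction n using Nat.strong_induction_on with
  | _ n ih =>
    cases n with
    | zero => simp [P, Pool.Agent.R326.av_zero]
    | succ n =>
      have hn : ((n : ℂ) + 1) ≠ 0 := by exact_mod_cast Nat.succ_ne_zero n
      rw [Pool.Agent.R326.av_succ, P, Finset.sum_range (fun k =>
        (ArithmeticFunction.sigma 1 (k + 1) : ℂ) * (n.descFactorial k : ℂ) *
          Pool.Agent.R326.av x (n - k))]
      simp only [map_mul, map_sum, aeval_C, aeval_X, map_div₀, map_one, map_add, map_natCast]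
      rw [Nat.factorial_succ]
      push_cast
      have h1 : ((n : ℂ) + 1) * (n.factorial : ℂ) * (1 / ((n : ℂ) + 1) * x *
          ∑ k : Fin (n + 1), (ArithmeticFunction.sigma 1 ((k : ℕ) + 1) : ℂ) *
            aeval x (P (n - k))) =
          x * ∑ k : Fin (n + 1), (n.factorial : ℂ) *
            ((ArithmeticFunction.sigma 1 ((k : ℕ) + 1) : ℂ) * aeval x (P (n - k))) := by
        rw [← Finset.mul_sum]
        field_simp
      rw [h1]
      congr 1
      apply Finset.sum_congr rfl
      intro k _
      have hk : (k : ℕ) ≤ n := by have := k.2; omega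
      rw [← ih (n - k) (by omega)]
      have h2 := Nat.factorial_mul_descFactorial hk
      have h3 : (n.factorial : ℂ) = ((n - k).factorial : ℂ) * (n.descFactorial k : ℂ) := by
        rw [← h2]; push_cast; ring
      rw [h3]
      ring

lemma av_zero {x : ℂ} {n : ℕ} (h : aeval x (P n) = 0) : Pool.Agent.R326.av x n = 0 := by
  rw [← aeval_P, h, mul_zero]

theorem result (x : ℂ) (hx : ∀ m : ℤ, x ≠ m) :
    Tendsto (fun N : ℕ => (Nat.card {n : ℕ | n < N ∧ aeval x (P n) = 0} : ℝ) / N) atTop (𝓝 0) := by
  classical
  have h := Pool.Agent.Y49x.Darc.zeros_density x hx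
  refine h.congr fun N => ?_
  congr 2
  have h1 : {n : ℕ | n < N ∧ aeval x (P n) = 0} =
      (({n ∈ Finset.range N | n ∈ {n | Pool.Agent.R326.av x n = 0}} : Finset ℕ) : Set ℕ) := by
    ext n
    rw [Finset.coe_filter]
    simp only [Set.mem_ofPred_eq, Finset.mem_range]
    constructor
    · rintro ⟨h2, h3⟩
      exact ⟨h2, av_zero h3⟩
    · rintro ⟨h2, h3⟩
      refine ⟨h2, ?_⟩
      rw [← aeval_P] at h3
      exact (mul_eq_zero.1 h3).resolve_left (by exact_mod_cast Nat.factorial_ne_zero n)
  rw [h1, Nat.card_eq_card_toFinset, Finset.toFinset_coe]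

end Pool.Agent.Results.MP_d73f62_nt.DensityZero
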