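import Pool.Agent.Y49x.Darc.Lists

/-!
# D'Arcais polynomials at `i t`, `t` rational

If `P_n (i t) = 0` with `t ≠ 0` rational, then `t` is an integer divisible by
`L = 2 · 9 · 11 · 19 ⋯ 367 > 10 ^ 51` and `10 ^ 51 < |t| < 16 (n - 1)`. So `P_n (i t) ≠ 0` for all
`n` when `0 < |t| ≤ 10 ^ 51`, and for all rational `t ≠ 0` when `n ≤ 6 · 10 ^ 49`.

The proof: for `p ∤ t` and `p ≡ 3` modulo `4` the value at `i t` is computed modulo a prime above
`p`, where it is periodic in `n` up to non-zero factors; the kernel checks that no value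
vanishes.
-/

set_option autoImplicit false

namespace Pool.Agent.Results.MP_d73f62_nt.HugeModulus

open Polynomial

/-- The D'Arcais polynomials: `P 0 = 1` and
`P (n + 1) = x / (n + 1) * ∑_{k = 0}^{n} σ(k + 1) P (n - k)`. -/
noncomputable def P : ℕ → ℚ[X]
  | 0 => 1
  | n + 1 => C (1 / ((n : ℚ) + 1)) * X * ∑ k : Fin (n + 1),
      C (ArithmeticFunction.sigma 1 ((k : ℕ) + 1) : ℚ) * P (n - k)

/-- the modulus `L = 1028847236848379752123773801050725569092505714036018` -/
def L : ℕ :=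
  2 * 9 * 11 * 19 * 43 * 47 * 59 * 67 * 71 * 83 * 103 * 127 * 131 * 139 * 151 * 163 * 167 * 179 *
  199 * 223 * 227 * 251 * 311 * 331 * 347 * 367

lemma aeval_P (x : ℂ) (n : ℕ) :
    (n.factorial : ℂ) * aeval x (P n) = Pool.Agent.R326.av x n := by
  induction n using Nat.strong_induction_on with
  | _ n ih =>
    cases n with
    | zero => simp [P, Pool.Agent.R326.av_zero]
    | succ n =>
      have hn : ((n : ℂ) + 1) ≠ 0 := by exact_mod_cast Nat.succ_ne_zero n
      rw [Pool.Agent.R326.av_succ, P, Finset.sum_range (fun k =>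
        (ArithmeticFunction.sigma 1 (k + 1) : ℂ) * (n.descFactorial k : ℂ) *
          Pool.Agent.R326.av x (n - k))]
      simp only [map_mul, map_sum, aeval_C, aeval_X, map_div₀, map_one, map_add, map_natCast]
      rw [Nat.factorial_succ]
      push_cast
      have h1 : ((n : ℂ) + 1) * (n.factorial : ℂ) * (1 / ((n : ℂ) + 1) * x *
          ∑ k : Fin (n + 1), (ArithmeticFunction.sigma 1 ((k : ℕ) + 1) : ℂ) *
            aeval x (P (n - k))) =
          x * ∑ k : Fin (n + 1), (n.factorial : ℂ) *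
            ((ArithmeticFunction.sigma 1 ((k : ℕ) + 1) : ℂ) * aeval x (P (n - k))) := by
        rw [← Finset.mul_sum]
        field_simp
      rw [h1]
      congr 1
      apply Finset.sum_congr rfl
      intro k _
      have hk : (k : ℕ) ≤ n := by have := k.2; omega
      rw [← ih (n - k) (by omega)]
      have h2 := Nat.factorial_mul_descFactorial hk
      have h3 : (n.factorial : ℂ) = ((n - k).factorial : ℂ) * (n.descFactorial k : ℂ) := by
        rw [← h2]; push_cast; ring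
      rw [h3]
      ring

lemma av_zero {x : ℂ} {n : ℕ} (h : aeval x (P n) = 0) : Pool.Agent.R326.av x n = 0 := by
  rw [← aeval_P, h, mul_zero]

lemma L_eq : L = Pool.Agent.Y49x.Darc.T.prod := by decide +kernel

lemma rational {n : ℕ} {t : ℚ} (ht : t ≠ 0) (h : aeval (Complex.I * (t : ℂ)) (P n) = 0) :
    (∃ m : ℤ, t = m * L) ∧ |t| < 16 * ((n : ℚ) - 1) := by
  have h0 := av_zero h
  constructor
  · obtain ⟨m, rfl⟩ := Pool.Agent.Y49x.Darc.rat_int h0
    have h1 : (Complex.I * ((m : ℚ) : ℂ)) ^ 2 = -((m.natAbs ^ 2 : ℕ) : ℂ) := by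
      rw [mul_pow, Complex.I_sq]
      have h2 : ((m.natAbs ^ 2 : ℕ) : ℤ) = m ^ 2 := by
        push_cast
        exact sq_abs m
      have h3 : ((m.natAbs ^ 2 : ℕ) : ℂ) = (m : ℂ) ^ 2 := by
        have h4 := congrArg (Int.cast : ℤ → ℂ) h2
        rw [Int.cast_natCast, Int.cast_pow] at h4
        exact h4
      rw [h3]
      push_cast
      ring
    have h5 := Pool.Agent.Y49x.Darc.T_dvd h1 h0
    rw [← L_eq] at h5
    obtain ⟨c, hc⟩ := Int.natCast_dvd.2 h5
    exact ⟨c, by rw [hc]; push_cast; ring⟩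
  · have hx : Complex.I * (t : ℂ) ≠ 0 := mul_ne_zero Complex.I_ne_zero (by exact_mod_cast ht)
    have h1 := Pool.Agent.Y49x.Darc.size_lt hx h0
    rw [norm_mul, Complex.norm_I, one_mul] at h1
    have h2 : ‖(t : ℂ)‖ = ((|t| : ℚ) : ℝ) := by
      rw [show (t : ℂ) = ((t : ℝ) : ℂ) by push_cast; rfl, Complex.norm_real, Real.norm_eq_abs,
        Rat.cast_abs]
    rw [h2] at h1
    have h3 : ((|t| : ℚ) : ℝ) < ((16 * ((n : ℚ) - 1) : ℚ) : ℝ) := by
      push_cast at h1 ⊢
      exact h1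
    exact_mod_cast h3

lemma L_le {t : ℚ} (ht : t ≠ 0) (h : ∃ m : ℤ, t = m * L) : (10 : ℚ) ^ 51 < |t| := by
  obtain ⟨m, rfl⟩ := h
  have hm : m ≠ 0 := by
    rintro rfl
    simp at ht
  have h1 : (1 : ℚ) ≤ |(m : ℚ)| := by
    rw [← Int.cast_abs]
    exact_mod_cast Int.one_le_abs hm
  have h2 : (10 : ℚ) ^ 51 < L := by
    unfold L
    norm_num
  rw [abs_mul, Nat.abs_cast]
  nlinarith

theorem result (n : ℕ) (t : ℚ) (ht : t ≠ 0) (h : aeval (Complex.I * (t : ℂ)) (P n) = 0) :
    (∃ m : ℤ, t = m * L) ∧ 10 ^ 51 < |t| ∧ |t| < 16 * ((n : ℚ) - 1) :=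
  ⟨(rational ht h).1, L_le ht (rational ht h).1, (rational ht h).2⟩

end Pool.Agent.Results.MP_d73f62_nt.HugeModulus
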