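import Pool.Agent.Y49x.Darc.NZ50

/-!
# For 95 % of the `n` the D'Arcais polynomial has no zero `i t`, `t` an integer

For all large `M`, at least `0.95 M` of the `n < M` are such that `P_n (i t) ≠ 0` for every
rational `t ≠ 0`.

The proof: if `P_n (i t) = 0` with `t ≠ 0` an integer then every large prime `p ≡ 3` modulo `4`
that divides one of `n, n - 1, …, n - 49` divides `t`, while `|t| < 16 (n - 1)`; a second moment
estimate shows that the product of these primes exceeds `16 n` for 95 % of the `n`.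
-/

set_option autoImplicit false

namespace Pool.Agent.Results.MP_d73f62_nt.PositiveProportion

open Polynomial

/-- The D'Arcais polynomials: `P 0 = 1` and
`P (n + 1) = x / (n + 1) * ∑_{k = 0}^{n} σ(k + 1) P (n - k)`. -/
noncomputable def P : ℕ → ℚ[X]
  | 0 => 1
  | n + 1 => C (1 / ((n : ℚ) + 1)) * X * ∑ k : Fin (n + 1),
      C (ArithmeticFunction.sigma 1 ((k : ℕ) + 1) : ℚ) * P (n - k)

lemma aeval_P (x : ℂ) (n : ℕ) :
    (n.factorial : ℂ) * aeval x (P n) = Pool.Agent.R326.av x n := by
  induction n using Nat.strong_induction_on with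
  | _ n ih =>
    cases n with
    | zero => simp [P, Pool.Agent.R326.av_zero]
    | succ n =>
      have hn : ((n : ℂ) + 1) ≠ 0 := by exact_mod_cast Nat.succ_ne_zero n
      rw [Pool.Agent.R326.av_succ, P, Finset.sum_range (fun k =>
        (ArithmeticFunction.sigma 1 (k + 1) : ℂ) * (n.descFactorial k : ℂ) *
          Pool.Agent.R326.av x (n - k))]
      simp only [map_mul, map_sum, aeval_C, aeval_X, map_div₀, map_one, map_add, map_natCast]
      rw [Nat.factorial_succ]
      push_cast
      have h1 : ((n : ℂ) + 1) * (n.factorial : ℂ) * (1 / ((n : ℂ) + 1) * x *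
          ∑ k : Fin (n + 1), (ArithmeticFunction.sigma 1 ((k : ℕ) + 1) : ℂ) *
            aeval x (P (n - k))) =
          x * ∑ k : Fin (n + 1), (n.factorial : ℂ) *
            ((ArithmeticFunction.sigma 1 ((k : ℕ) + 1) : ℂ) * aeval x (P (n - k))) := by
        rw [← Finset.mul_sum]
        field_simp
      rw [h1]
      congr 1
      apply Finset.sum_congr rfl
      intro k _
      have hk : (k : ℕ) ≤ n := by have := k.2; omega
      rw [← ih (n - k) (by omega)]
      have h2 := Nat.factorial_mul_descFactorial hk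
      have h3 : (n.factorial : ℂ) = ((n - k).factorial : ℂ) * (n.descFactorial k : ℂ) := by
        rw [← h2]; push_cast; ring
      rw [h3]
      ring

lemma av_zero {x : ℂ} {n : ℕ} (h : aeval x (P n) = 0) : Pool.Agent.R326.av x n = 0 := by
  rw [← aeval_P, h, mul_zero]

theorem result : ∃ M0 : ℕ, ∀ M : ℕ, M0 ≤ M → (95 / 100 : ℝ) * M ≤
    Nat.card {n : ℕ | n < M ∧ ∀ t : ℚ, t ≠ 0 → aeval (Complex.I * (t : ℂ)) (P n) ≠ 0} := by
  obtain ⟨M0, h⟩ := Pool.Agent.Y49x.Darc.Gen.final
  refine ⟨M0, fun M hM => ?_⟩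
  have h1 := h M hM
  have h2 : {n : ℕ | n < M ∧ ∀ t : ℤ, t ≠ 0 →
      Pool.Agent.R326.av (Complex.I * (t : ℂ)) n ≠ 0} =
      {n : ℕ | n < M ∧ ∀ t : ℚ, t ≠ 0 → aeval (Complex.I * (t : ℂ)) (P n) ≠ 0} := by
    ext n
    refine and_congr_right fun _ => ⟨fun h3 t ht h4 => ?_, fun h3 t ht h4 => ?_⟩
    · have h5 := av_zero h4
      obtain ⟨m, rfl⟩ := Pool.Agent.Y49x.Darc.rat_int h5
      refine h3 m (by exact_mod_cast ht) ?_
      simpa using h5
    · apply h3 t (by exact_mod_cast ht)
      rw [← aeval_P] at h4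
      have h5 := (mul_eq_zero.1 h4).resolve_left (by exact_mod_cast Nat.factorial_ne_zero n)
      simpa using h5
  rw [h2] at h1
  linarith

end Pool.Agent.Results.MP_d73f62_nt.PositiveProportion
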