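import Pool.Agent.Y49x.Darc.Lists

/-!
# Conditions for the zeros `i t` of the D'Arcais polynomials, `t` real

If `P_n (i t) = 0` with `t ≠ 0` real, then `i t` is an algebraic integer and, for each of the 35
primes `p` of `S`, every root modulo `p` of the minimal polynomial of `-t ^ 2` over `ℤ` is a square
modulo `p`. If moreover `t ^ 2` is rational, then it is an integer `d > 10 ^ 7`, `d ≡ 0, 3`
modulo `4`, `d ≢ 9` modulo `27`, and `-d` is a square modulo each `p` in `S`.
-/

set_option autoImplicit false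

namespace Pool.Agent.Results.MP_d73f62_nt.SquareClasses

open Polynomial

/-- The D'Arcais polynomials: `P 0 = 1` and
`P (n + 1) = x / (n + 1) * ∑_{k = 0}^{n} σ(k + 1) P (n - k)`. -/
noncomputable def P : ℕ → ℚ[X]
  | 0 => 1
  | n + 1 => C (1 / ((n : ℚ) + 1)) * X * ∑ k : Fin (n + 1),
      C (ArithmeticFunction.sigma 1 ((k : ℕ) + 1) : ℚ) * P (n - k)

/-- 35 primes -/
def S : List ℕ := [
  3, 5, 11, 13, 17, 19, 29, 41, 43, 47, 53, 59, 61, 67, 71, 83, 97, 101, 103, 113, 127, 131, 139,
  151, 163, 167, 179, 199, 223, 227, 251, 311, 331, 347, 367]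

lemma aeval_P (x : ℂ) (n : ℕ) :
    (n.factorial : ℂ) * aeval x (P n) = Pool.Agent.R326.av x n := by
  induction n using Nat.strong_induction_on with
  | _ n ih =>
    cases n with
    | zero => simp [P, Pool.Agent.R326.av_zero]
    | succ n =>
      have hn : ((n : ℂ) + 1) ≠ 0 := by exact_mod_cast Nat.succ_ne_zero n
      rw [Pool.Agent.R326.av_succ, P, Finset.sum_range (fun k =>
        (ArithmeticFunction.sigma 1 (k + 1) : ℂ) * (n.descFactorial k : ℂ) *
          Pool.Agent.R326.av x (n - k))]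
      simp only [map_mul, map_sum, aeval_C, aeval_X, map_div₀, map_one, map_add, map_natCast]
      rw [Nat.factorial_succ]
      push_cast
      have h1 : ((n : ℂ) + 1) * (n.factorial : ℂ) * (1 / ((n : ℂ) + 1) * x *
          ∑ k : Fin (n + 1), (ArithmeticFunction.sigma 1 ((k : ℕ) + 1) : ℂ) *
            aeval x (P (n - k))) =
          x * ∑ k : Fin (n + 1), (n.factorial : ℂ) *
            ((ArithmeticFunction.sigma 1 ((k : ℕ) + 1) : ℂ) * aeval x (P (n - k))) := by
        rw [← Finset.mul_sum]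
        field_simp
      rw [h1]
      congr 1
      apply Finset.sum_congr rfl
      intro k _
      have hk : (k : ℕ) ≤ n := by have := k.2; omega
      rw [← ih (n - k) (by omega)]
      have h2 := Nat.factorial_mul_descFactorial hk
      have h3 : (n.factorial : ℂ) = ((n - k).factorial : ℂ) * (n.descFactorial k : ℂ) := by
        rw [← h2]; push_cast; ring
      rw [h3]
      ring

lemma av_zero {x : ℂ} {n : ℕ} (h : aeval x (P n) = 0) : Pool.Agent.R326.av x n = 0 := by
  rw [← aeval_P, h, mul_zero]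

theorem result (n : ℕ) (t : ℝ) (ht : t ≠ 0) (h : aeval (Complex.I * (t : ℂ)) (P n) = 0) :
    IsIntegral ℤ (Complex.I * (t : ℂ)) ∧
    (∀ p ∈ S, ∀ e : ZMod p,
      ((minpoly ℤ (-(t : ℂ) ^ 2)).map (Int.castRingHom (ZMod p))).IsRoot e → IsSquare e) ∧
    (∀ r : ℚ, t ^ 2 = r → ∃ d : ℕ, r = d ∧ 10 ^ 7 < d ∧ (d % 4 = 0 ∨ d % 4 = 3) ∧
      d % 27 ≠ 9 ∧ ∀ p ∈ S, IsSquare (-(d : ZMod p))) := by
  have h0 := av_zero h
  have hsq : (Complex.I * (t : ℂ)) ^ 2 = -(t : ℂ) ^ 2 := by
    rw [mul_pow, Complex.I_sq]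
    ring
  refine ⟨Pool.Agent.Y49x.Darc.av_integral h0, fun p hp e he => ?_, fun r htr => ?_⟩
  · rw [← hsq] at he
    exact (Pool.Agent.Y49x.Darc.good_of_mem p hp).root h0 e he
  · obtain ⟨d, rfl⟩ := Pool.Agent.Y49x.Darc.sq_nat htr h0
    have htd : t ^ 2 = (d : ℝ) := by rw [htr]; simp
    have hx : (Complex.I * (t : ℂ)) ^ 2 = -(d : ℂ) := by
      rw [mul_pow, Complex.I_sq, ← Complex.ofReal_pow, htd]
      push_cast
      ring
    have hd : 0 < d := by
      rcases Nat.eq_zero_or_pos d with h1 | h1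
      · rw [h1, Nat.cast_zero] at htd
        exact absurd (pow_eq_zero_iff (by norm_num) |>.1 htd) ht
      · exact h1
    refine ⟨d, rfl, Pool.Agent.Y49x.Darc.large hd hx h0, ?_, ?_, ?_⟩
    · by_contra h1
      exact Pool.Agent.R326.av_ne_zero (by omega) hx n h0
    · intro h1
      exact Pool.Agent.R326.av_ne_zero (by omega) hx n h0
    · intro p hp
      exact (Pool.Agent.Y49x.Darc.good_of_mem p hp).isSquare hx h0

end Pool.Agent.Results.MP_d73f62_nt.SquareClasses
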